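import Mathlib

/-! Oriented matroids by covector axioms: uniform criterion, parallel connection. -/

set_option autoImplicit false

namespace Pool.Agent.H6.LV

/-- composition of sign vectors -/
def comp {α : Type*} (X Y : α → SignType) : α → SignType := fun e => if X e = 0 then Y e else X e

/-- covector axioms -/
structure IsOM {α : Type*} (L : Set (α → SignType)) : Prop where
  zero : (0 : α → SignType) ∈ L
  neg : ∀ X ∈ L, -X ∈ L
  cmp : ∀ X ∈ L, ∀ Y ∈ L, comp X Y ∈ L
  elim : ∀ X ∈ L, ∀ Y ∈ L, ∀ e : α, X e ≠ 0 → Y e = -X e →
      ∃ Z ∈ L, Z e = 0 ∧ ∀ f : α, ¬ (X f ≠ 0 ∧ Y f = -X f) → Z f = comp X Y f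

theorem sign_ne_neg {a : SignType} (h : a ≠ 0) : a ≠ -a := by
  revert h; revert a; decide

theorem neg_eq_of_ne {a b : SignType} (ha : a ≠ 0) (hb : b ≠ 0) (h : a ≠ b) : b = -a := by
  revert ha hb h; revert a b; decide

theorem eq_neg_self {a : SignType} (h : a = -a) : a = 0 := by
  revert h; revert a; decide

section Uniform

variable {n : ℕ}

/-- `T` is a filling of the zeros of `X` -/
def Fills (X : Fin n → SignType) (T : Fin n → Bool) : Prop :=
  ∀ i, X i ≠ 0 → (T i = true ↔ X i = 1)

/-- number of zeros -/
def nz (X : Fin n → SignType) : ℕ := (Finset.univ.filter (fun i => X i = 0)).card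

/-- the uniform oriented matroid with topes `top` -/
def UL (top : (Fin n → Bool) → Prop) (r : ℕ) : Set (Fin n → SignType) :=
  {X | X = 0 ∨ (nz X < r ∧ ∀ T, Fills X T → top T)}

def flip (X : Fin n → SignType) (s : Fin n) : Fin n → SignType := Function.update X s (-X s)

theorem nz_le {X Y : Fin n → SignType} (h : ∀ i, Y i = 0 → X i = 0) : nz Y ≤ nz X := by
  apply Finset.card_le_card
  intro i
  simp only [Finset.mem_filter, Finset.mem_univ, true_and]
  exact h i

theorem nz_update {X : Fin n → SignType} {s : Fin n} : nz (Function.update X s 0) ≤ nz X + 1 := by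
  unfold nz
  have : Finset.univ.filter (fun i => Function.update X s 0 i = 0) ⊆
      insert s (Finset.univ.filter (fun i => X i = 0)) := by
    intro i
    simp only [Finset.mem_filter, Finset.mem_univ, true_and, Finset.mem_insert]
    intro hi
    by_cases h : i = s
    · exact Or.inl h
    · rw [Function.update_of_ne h] at hi
      exact Or.inr hi
  exact (Finset.card_le_card this).trans (Finset.card_insert_le _ _)

theorem UL_update {top : (Fin n → Bool) → Prop} {r : ℕ} {X : Fin n → SignType} {s : Fin n}
    (hX : X ∈ UL top r) (hs : X s ≠ 0) (hF : flip X s ∈ UL top r) (hr : nz X + 1 < r) :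
    Function.update X s 0 ∈ UL top r := by
  right
  refine ⟨lt_of_le_of_lt nz_update hr, fun T hT => ?_⟩
  have hX' : ∀ T, Fills X T → top T := by
    rcases hX with h | h
    · exact absurd (congrFun h s) hs
    · exact h.2
  have hF' : ∀ T, Fills (flip X s) T → top T := by
    rcases hF with h | h
    · have := congrFun h s
      simp only [flip, Function.update_self, Pi.zero_apply] at this
      exact absurd (by revert this; generalize X s = a; revert a; decide) hs
    · exact h.2
  have key : ∀ i, i ≠ s → X i ≠ 0 → (T i = true ↔ X i = 1) := by
    intro i hi h0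
    have := hT i
    rw [Function.update_of_ne hi] at this
    exact this h0
  by_cases hc : (T s = true ↔ X s = 1)
  · apply hX'
    intro i hi
    by_cases h : i = s
    · subst h; exact hc
    · exact key i h hi
  · apply hF'
    intro i hi
    by_cases h : i = s
    · subst h
      simp only [flip, Function.update_self] at hi ⊢
      revert hc hs
      generalize X i = a
      generalize T i = b
      revert a b
      decide
    · simp only [flip, Function.update_of_ne h] at hi ⊢
      exact key i h hi

theorem fills_neg {X : Fin n → SignType} {T : Fin n → Bool} (h : Fills (-X) T) :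
    Fills X (fun i => !T i) := by
  intro i hi
  have := h i
  show ((!T i) = true ↔ X i = 1)
  simp only [Pi.neg_apply] at this
  revert this hi
  generalize X i = a
  generalize T i = b
  revert a b
  decide

theorem fills_comp {X Y : Fin n → SignType} {T : Fin n → Bool} (h : Fills (comp X Y) T) :
    Fills X T := by
  intro i hi
  have := h i
  simp only [comp, if_neg hi] at this
  exact this hi

/-- walking criterion for the elimination axiom -/
theorem isOM_UL (top : (Fin n → Bool) → Prop) (r : ℕ)
    (h1 : ∀ T, top T → top (fun i => !T i))
    (h2 : ∀ X ∈ UL top r, ∀ Y ∈ UL top r, (∀ i, X i = 0 ↔ Y i = 0) → nz X + 1 < r → X ≠ Y →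
      ∃ s, X s ≠ 0 ∧ Y s = -X s ∧ flip X s ∈ UL top r)
    (h3 : ∀ X ∈ UL top r, ∀ Y ∈ UL top r, (∀ i, X i = 0 ↔ Y i = 0) → nz X + 1 = r → X ≠ Y →
      Y = -X) :
    IsOM (UL top r) := by
  have hneg : ∀ X ∈ UL top r, -X ∈ UL top r := by
    rintro X (hX | ⟨hX, hT⟩)
    · left; rw [hX, neg_zero]
    · right
      refine ⟨?_, fun T hT' => ?_⟩
      · have : nz (-X) = nz X := by
          unfold nz; congr 1; ext i; simp
        rw [this]; exact hX
      · have := h1 _ (hT _ (fills_neg hT'))
        simpa using this
  have hcomp : ∀ X ∈ UL top r, ∀ Y ∈ UL top r, comp X Y ∈ UL top r := by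
    rintro X (hX | ⟨hX, hT⟩) Y hY
    · have : comp X Y = Y := by
        funext i; simp [comp, hX]
      rw [this]; exact hY
    · right
      refine ⟨lt_of_le_of_lt (nz_le ?_) hX, fun T hT' => hT T (fills_comp hT')⟩
      intro i hi
      by_contra h
      simp only [comp, if_neg h] at hi
      exact h hi
  -- the walk
  have walk : ∀ m : ℕ, ∀ X ∈ UL top r, ∀ Y ∈ UL top r, (∀ i, X i = 0 ↔ Y i = 0) →
      (Finset.univ.filter (fun i => X i ≠ Y i)).card ≤ m → ∀ e, X e ≠ 0 → Y e = -X e →
      ∃ Z ∈ UL top r, Z e = 0 ∧ ∀ f, X f = Y f → Z f = X f := by
    intro m
    induction m with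
    | zero =>
      intro X _ Y _ _ hc e he hY
      exfalso
      have : e ∈ Finset.univ.filter (fun i => X i ≠ Y i) := by
        simp only [Finset.mem_filter, Finset.mem_univ, true_and, hY]
        exact sign_ne_neg he
      rw [Finset.card_eq_zero.mp (Nat.le_zero.mp hc)] at this
      simp at this
    | succ m ih =>
      intro X hX Y hY hz hc e he hYe
      have hne : X ≠ Y := by
        intro h
        have := congrFun h e
        rw [hYe] at this
        exact sign_ne_neg he this
      have hlt : nz X < r := by
        rcases hX with h | h
        · exact absurd (congrFun h e) he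
        · exact h.1
      rcases Nat.lt_or_ge (nz X + 1) r with hr | hr
      · obtain ⟨s, hs, hYs, hF⟩ := h2 X hX Y hY hz hr hne
        by_cases hse : s = e
        · subst hse
          refine ⟨Function.update X s 0, UL_update hX hs hF hr, by simp, ?_⟩
          intro f hf
          have : f ≠ s := by
            rintro rfl
            rw [hYs] at hf
            exact sign_ne_neg hs hf
          rw [Function.update_of_ne this]
        · have hz' : ∀ i, flip X s i = 0 ↔ Y i = 0 := by
            intro i
            by_cases h : i = s
            · subst h
              simp only [flip, Function.update_self]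
              rw [hYs]
            · simp only [flip, Function.update_of_ne h]
              exact hz i
          have hXs : flip X s s = Y s := by
            simp only [flip, Function.update_self]
            exact hYs.symm
          have hcard : (Finset.univ.filter (fun i => flip X s i ≠ Y i)).card ≤ m := by
            have hsub : Finset.univ.filter (fun i => flip X s i ≠ Y i) ⊆
                (Finset.univ.filter (fun i => X i ≠ Y i)).erase s := by
              intro i
              simp only [Finset.mem_filter, Finset.mem_univ, true_and, Finset.mem_erase]
              intro hi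
              have his : i ≠ s := by
                rintro rfl
                exact hi hXs
              refine ⟨his, ?_⟩
              simpa only [flip, Function.update_of_ne his] using hi
            have hmem : s ∈ Finset.univ.filter (fun i => X i ≠ Y i) := by
              simp only [Finset.mem_filter, Finset.mem_univ, true_and, hYs]
              exact sign_ne_neg hs
            have := Finset.card_le_card hsub
            rw [Finset.card_erase_of_mem hmem] at this
            omega
          have hXe : flip X s e = X e := by
            simp only [flip, Function.update_of_ne (Ne.symm hse)]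
          obtain ⟨Z, hZ, hZe, hZf⟩ := ih (flip X s) hF Y hY hz' hcard e
            (by rw [hXe]; exact he) (by rw [hXe]; exact hYe)
          refine ⟨Z, hZ, hZe, ?_⟩
          intro f hf
          have hfs : f ≠ s := by
            rintro rfl
            rw [hYs] at hf
            exact sign_ne_neg hs hf
          have hff : flip X s f = X f := by
            simp only [flip, Function.update_of_ne hfs]
          have := hZf f (by rw [hff]; exact hf)
          rw [this, hff]
      · have hr' : nz X + 1 = r := by omega
        have := h3 X hX Y hY hz hr' hne
        refine ⟨0, Or.inl rfl, rfl, ?_⟩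
        intro f hf
        rw [this] at hf
        exact (eq_neg_self hf).symm
  refine ⟨Or.inl rfl, hneg, hcomp, ?_⟩
  intro X hX Y hY e he hYe
  have hYe0 : Y e ≠ 0 := by
    rw [hYe]; intro h; apply he; revert h; generalize X e = a; revert a; decide
  obtain ⟨Z, hZ, hZe, hZf⟩ := walk _ (comp X Y) (hcomp X hX Y hY) (comp Y X) (hcomp Y hY X hX)
    (by
      intro i
      simp only [comp]
      generalize X i = a
      generalize Y i = b
      revert a b
      decide) le_rfl e (by simp only [comp, if_neg he]; exact he)
    (by simp only [comp, if_neg he, if_neg hYe0]; exact hYe)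
  refine ⟨Z, hZ, hZe, ?_⟩
  intro f hf
  apply hZf f
  revert hf
  simp only [comp]
  generalize X f = a
  generalize Y f = b
  revert a b
  decide

end Uniform

end Pool.Agent.H6.LV
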