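import Pool.Agent.H6.LV.Good

/-! The parallel connection of two copies of `L13` at `0`, on 25 elements. -/

set_option autoImplicit false

namespace Pool.Agent.H6.LV

/-- first copy -/
def lft (i : Fin 13) : Fin 25 := ⟨i, by omega⟩

/-- second copy -/
def rgt (i : Fin 13) : Fin 25 := if i = 0 then 0 else ⟨i + 12, by omega⟩

theorem glue25 : Glue lft rgt 0 where
  hl := by decide
  hr := by decide
  ho := by decide
  hlr := by decide
  hs := by decide

/-- the 25 element oriented matroid of rank 7 -/
def L25 : Set (Fin 25 → SignType) := PC L13 lft rgt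

/-- sign of a bit -/
def sg (b : Bool) : SignType := if b then 1 else -1

theorem exists_tope13 (i j : Fin 13) (hij : i ≠ j) (a b : Bool) :
    ∃ X ∈ L13, X i = sg a ∧ X j = sg b := by
  have h1 := tab0_pairs
  rw [List.all_eq_true] at h1
  have h2 := h1 i (mem_pos i.isLt)
  rw [List.all_eq_true] at h2
  have h3 := h2 j (mem_pos j.isLt)
  rw [Bool.or_eq_true] at h3
  rcases h3 with h3 | h3
  · exact absurd (Fin.ext (Nat.eq_of_beq_eq_true h3)) hij
  · rw [List.all_eq_true] at h3
    have h4 := h3 (a, b) (by cases a <;> cases b <;> simp)
    rw [List.any_eq_true] at h4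
    obtain ⟨p, hp, h5⟩ := h4
    rw [Bool.and_eq_true, beq_iff_eq, beq_iff_eq] at h5
    refine ⟨fun e => sg (p.1.testBit e), ?_, ?_, ?_⟩
    · have hnz : ∀ e : Fin 13, sg (p.1.testBit e) ≠ 0 := by
        intro e
        generalize p.1.testBit e = c
        revert c
        decide
      apply mem_of
      · rw [nz_tope hnz]; norm_num
      · intro u hu hui
        have hlt : p.1 < 8192 := by
          have h6 := tab0_lt
          rw [List.all_eq_true] at h6
          have h7 := h6 p hp
          exact Nat.le_of_ble_eq_true h7
        have : u = p.1 := by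
          apply eq_of_bits hu hlt
          intro e he
          have h8 := hui ⟨e, he⟩ (hnz ⟨e, he⟩)
          simp only at h8
          rw [h8]
          generalize p.1.testBit e = c
          revert c
          decide
        rw [this, ← Nat.eq_of_beq_eq_true tab0_bits]
        exact (bits_testBit tab0 p.1).mpr ⟨p, hp, rfl⟩
    · show sg (p.1.testBit i) = sg a
      rw [h5.1]
    · show sg (p.1.testBit j) = sg b
      rw [h5.2]

theorem exists_tope25 (e f : Fin 25) (hef : e ≠ f) (a b : Bool) :
    ∃ X ∈ L25, X e = sg a ∧ X f = sg b := by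
  -- both in one copy
  have same : ∀ X₁ ∈ L13, ∃ X ∈ L25, X ∘ lft = X₁ ∧ X ∘ rgt = X₁ := by
    intro X₁ h1
    obtain ⟨X, hl, hr⟩ := glue25.exists_glue X₁ X₁ rfl
    exact ⟨X, ⟨by rw [hl]; exact h1, by rw [hr]; exact h1⟩, hl, hr⟩
  -- one in each copy
  have mixed : ∀ i j : Fin 13, i ≠ 0 → j ≠ 0 → ∀ a b : Bool,
      ∃ X ∈ L25, X (lft i) = sg a ∧ X (rgt j) = sg b := by
    intro i j hi hj a b
    obtain ⟨X₁, h1, h10, h1i⟩ := exists_tope13 0 i (Ne.symm hi) true a
    obtain ⟨X₂, h2, h20, h2j⟩ := exists_tope13 0 j (Ne.symm hj) true b
    obtain ⟨X, hl, hr⟩ := glue25.exists_glue X₁ X₂ (h10.trans h20.symm)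
    refine ⟨X, ⟨by rw [hl]; exact h1, by rw [hr]; exact h2⟩, ?_, ?_⟩
    · have := congrFun hl i
      simp only [Function.comp_apply] at this
      rw [this]; exact h1i
    · have := congrFun hr j
      simp only [Function.comp_apply] at this
      rw [this]; exact h2j
  rcases glue25.hs e with ⟨i, rfl⟩ | ⟨i, rfl⟩
  · rcases glue25.hs f with ⟨j, rfl⟩ | ⟨j, rfl⟩
    · have hij : i ≠ j := fun h => hef (by rw [h])
      obtain ⟨X₁, h1, h1i, h1j⟩ := exists_tope13 i j hij a b
      obtain ⟨X, hX, hl, _⟩ := same X₁ h1
      refine ⟨X, hX, ?_, ?_⟩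
      · have := congrFun hl i
        simp only [Function.comp_apply] at this
        rw [this]; exact h1i
      · have := congrFun hl j
        simp only [Function.comp_apply] at this
        rw [this]; exact h1j
    · by_cases hi : i = 0
      · subst hi
        have hij : (0 : Fin 13) ≠ j := fun h => hef (by rw [← h]; exact glue25.ho)
        obtain ⟨X₁, h1, h1i, h1j⟩ := exists_tope13 0 j hij a b
        obtain ⟨X, hX, hl, hr⟩ := same X₁ h1
        refine ⟨X, hX, ?_, ?_⟩
        · have := congrFun hl 0
          simp only [Function.comp_apply] at this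
          rw [this]; exact h1i
        · have := congrFun hr j
          simp only [Function.comp_apply] at this
          rw [this]; exact h1j
      · by_cases hj : j = 0
        · subst hj
          have hij : i ≠ (0 : Fin 13) := hi
          obtain ⟨X₁, h1, h1i, h1j⟩ := exists_tope13 i 0 hij a b
          obtain ⟨X, hX, hl, hr⟩ := same X₁ h1
          refine ⟨X, hX, ?_, ?_⟩
          · have := congrFun hl i
            simp only [Function.comp_apply] at this
            rw [this]; exact h1i
          · have := congrFun hr 0
            simp only [Function.comp_apply] at this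
            rw [this]; exact h1j
        · exact mixed i j hi hj a b
  · rcases glue25.hs f with ⟨j, rfl⟩ | ⟨j, rfl⟩
    · by_cases hi : i = 0
      · subst hi
        have hij : (0 : Fin 13) ≠ j := fun h => hef (by rw [← h]; exact glue25.ho.symm)
        obtain ⟨X₁, h1, h1i, h1j⟩ := exists_tope13 0 j hij a b
        obtain ⟨X, hX, hl, hr⟩ := same X₁ h1
        refine ⟨X, hX, ?_, ?_⟩
        · have := congrFun hr 0
          simp only [Function.comp_apply] at this
          rw [this]; exact h1i
        · have := congrFun hl j
          simp only [Function.comp_apply] at this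
          rw [this]; exact h1j
      · by_cases hj : j = 0
        · subst hj
          have hij : i ≠ (0 : Fin 13) := hi
          obtain ⟨X₁, h1, h1i, h1j⟩ := exists_tope13 i 0 hij a b
          obtain ⟨X, hX, hl, hr⟩ := same X₁ h1
          refine ⟨X, hX, ?_, ?_⟩
          · have := congrFun hr i
            simp only [Function.comp_apply] at this
            rw [this]; exact h1i
          · have := congrFun hl 0
            simp only [Function.comp_apply] at this
            rw [this]; exact h1j
        · obtain ⟨X, hX, h1, h2⟩ := mixed j i hj hi b a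
          exact ⟨X, hX, h2, h1⟩
    · have hij : i ≠ j := fun h => hef (by rw [h])
      obtain ⟨X₁, h1, h1i, h1j⟩ := exists_tope13 i j hij a b
      obtain ⟨X, hX, _, hr⟩ := same X₁ h1
      refine ⟨X, hX, ?_, ?_⟩
      · have := congrFun hr i
        simp only [Function.comp_apply] at this
        rw [this]; exact h1i
      · have := congrFun hr j
        simp only [Function.comp_apply] at this
        rw [this]; exact h1j

theorem isOM_L25 : IsOM L25 := isOM_PC isOM_L13 glue25

theorem not_boolean_L25 {T : Fin 25 → SignType} (hT : T ∈ L25) (h : ∀ e, T e ≠ 0) :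
    ¬ Boolean L25 T := not_boolean good_L13 glue25 hT h

end Pool.Agent.H6.LV
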