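import Pool.Agent.H6.LV.M13

/-! `L13` is an oriented matroid and element `0` is in no simplicial tope. -/

set_option autoImplicit false

namespace Pool.Agent.H6.LV

theorem ent_spec {e : Ent1} (he : e ∈ ents) : chkSub [] e.1 tab0 e.2.1 = true ∧
    chkIso [e.1] e.2.1 = true ∧ (∀ q ∈ e.2.2, chkB e.1 e.2.1 q = true) ∧
    (∀ b < 13, e.1 < b → ∃ q ∈ e.2.2, q.1 = b) := by
  have h := chk_ents e he
  unfold chkA at h
  simp only [Bool.and_eq_true] at h
  obtain ⟨⟨⟨h1, h2⟩, h3⟩, h4⟩ := h
  refine ⟨h1, h2, ?_, ?_⟩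
  · rw [List.all_eq_true] at h3
    exact h3
  · intro b hb hab
    rw [List.all_eq_true] at h4
    have h5 := h4 b (mem_pos hb)
    rw [Bool.or_eq_true] at h5
    rcases h5 with h5 | h5
    · have := Nat.le_of_ble_eq_true h5
      omega
    · rw [List.any_eq_true] at h5
      obtain ⟨q, hq, h6⟩ := h5
      exact ⟨q, hq, Nat.eq_of_beq_eq_true h6⟩

theorem ent2_spec {a : ℕ} {S : List (ℕ × ℕ)} {e : Ent2} (h : chkB a S e = true) :
    chkSub [a] e.1 S e.2.1 = true ∧
    chkIso [e.1, a] e.2.1 = true ∧ (∀ q ∈ e.2.2, chkC a e.1 e.2.1 q = true) ∧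
    (∀ b < 13, e.1 < b → ∃ q ∈ e.2.2, q.1 = b) := by
  unfold chkB at h
  simp only [Bool.and_eq_true] at h
  obtain ⟨⟨⟨h1, h2⟩, h3⟩, h4⟩ := h
  refine ⟨h1, h2, ?_, ?_⟩
  · rw [List.all_eq_true] at h3
    exact h3
  · intro b hb hab
    rw [List.all_eq_true] at h4
    have h5 := h4 b (mem_pos hb)
    rw [Bool.or_eq_true] at h5
    rcases h5 with h5 | h5
    · have := Nat.le_of_ble_eq_true h5
      omega
    · rw [List.any_eq_true] at h5
      obtain ⟨q, hq, h6⟩ := h5
      exact ⟨q, hq, Nat.eq_of_beq_eq_true h6⟩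

theorem inA_cons {a : ℕ} {l : List ℕ} {t : ℕ} (h : inA (a :: l) t = true) :
    inA l (t ^^^ 2 ^ a) = true := by
  simp only [inA, Bool.and_eq_true] at h
  exact h.2

theorem mem1 {e : Ent1} (he : e ∈ ents) {X : Fin 13 → SignType} (hX : X ∈ L13) (h0 : X ≠ 0)
    (ha : e.1 < 13) (hz : X ⟨e.1, ha⟩ = 0) : Mem e.2.1 (zf X) := by
  apply sub_apply (ent_spec he).1 (zf_mem0 hX h0) (zf_zero hz)
  apply inA_cons
  apply inA_zf hX h0
  · intro b hb
    rw [List.mem_singleton] at hb
    omega
  · intro i hi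
    rw [List.mem_singleton] at hi
    have : i = ⟨e.1, ha⟩ := Fin.ext hi
    rw [this]; exact hz

theorem mem2 {a : ℕ} {S : List (ℕ × ℕ)} {q : Ent2} (hq : chkB a S q = true)
    {X : Fin 13 → SignType} (hX : X ∈ L13) (h0 : X ≠ 0) (hS : Mem S (zf X))
    (ha : a < 13) (hza : X ⟨a, ha⟩ = 0) (hb : q.1 < 13) (hzb : X ⟨q.1, hb⟩ = 0) :
    Mem q.2.1 (zf X) := by
  apply sub_apply (ent2_spec hq).1 hS (zf_zero hzb)
  apply inA_cons
  apply inA_zf hX h0
  · intro b hb
    simp only [List.mem_cons, List.not_mem_nil, or_false] at hb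
    omega
  · intro i hi
    simp only [List.mem_cons, List.not_mem_nil, or_false] at hi
    rcases hi with hi | hi
    · have : i = ⟨q.1, hb⟩ := Fin.ext hi
      rw [this]; exact hzb
    · have : i = ⟨a, ha⟩ := Fin.ext hi
      rw [this]; exact hza

theorem mem3 {a b : ℕ} {S : List (ℕ × ℕ)} {q : ℕ × ℕ} (hq : chkC a b S q = true)
    {X : Fin 13 → SignType} (hX : X ∈ L13) (h0 : X ≠ 0) (hS : Mem S (zf X))
    (ha : a < 13) (hza : X ⟨a, ha⟩ = 0) (hb : b < 13) (hzb : X ⟨b, hb⟩ = 0)
    (hc : q.1 < 13) (hzc : X ⟨q.1, hc⟩ = 0) :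
    zf X = q.2 ∨ zf X ^^^ q.2 = 8191 ^^^ (2 ^ a ^^^ 2 ^ b ^^^ 2 ^ q.1) := by
  obtain ⟨p, hp, hpt⟩ := hS
  unfold chkC at hq
  rw [List.all_eq_true] at hq
  have h1 := hq p hp
  rw [hpt] at h1
  have h2 : inA [b, a] (zf X ^^^ 2 ^ q.1) = true := by
    apply inA_cons
    apply inA_zf hX h0
    · intro i hi
      simp only [List.mem_cons, List.not_mem_nil, or_false] at hi
      omega
    · intro i hi
      simp only [List.mem_cons, List.not_mem_nil, or_false] at hi
      rcases hi with hi | hi | hi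
      · have : i = ⟨q.1, hc⟩ := Fin.ext hi
        rw [this]; exact hzc
      · have : i = ⟨b, hb⟩ := Fin.ext hi
        rw [this]; exact hzb
      · have : i = ⟨a, ha⟩ := Fin.ext hi
        rw [this]; exact hza
  have h3 : (zf X).testBit q.1 = false := zf_zero (i := ⟨q.1, hc⟩) hzc
  rw [h2, h3] at h1
  simp only [Bool.not_true, Bool.false_or, Bool.or_eq_true] at h1
  rcases h1 with h1 | h1
  · exact Or.inl (Nat.eq_of_beq_eq_true h1)
  · exact Or.inr (Nat.eq_of_beq_eq_true h1)

theorem nz_zero : nz (0 : Fin 13 → SignType) = 13 := by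
  unfold nz
  simp

theorem ne_zero_of_nz {X : Fin 13 → SignType} (h : nz X < 4) : X ≠ 0 := by
  rintro rfl
  rw [nz_zero] at h
  omega

theorem top_neg (T : Fin 13 → Bool) (h : top T) : top (fun i => !T i) := by
  obtain ⟨p, hp, hpt⟩ := mem_tab0 h
  have h1 := tab0_neg
  rw [List.all_eq_true] at h1
  have h2 := h1 p hp
  rw [hpt] at h2
  have h3 : 8191 ^^^ code T = code (fun i => !T i) := by
    apply eq_of_bits (xor_lt (by norm_num) (code_lt T)) (code_lt _)
    intro i hi
    have h4 := code_testBit T ⟨i, hi⟩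
    have h5 := code_testBit (fun i => !T i) ⟨i, hi⟩
    simp only at h4 h5
    rw [h5, Nat.testBit_xor, h4]
    have h6 : (8191 : ℕ).testBit i = true := by
      interval_cases i <;> decide
    rw [h6]
    simp
  unfold top
  rw [← h3]; exact h2

theorem zeros_eq {X Y : Fin 13 → SignType} (hz : ∀ i, X i = 0 ↔ Y i = 0) : nz X = nz Y := by
  unfold nz
  congr 1
  ext i
  simp only [Finset.mem_filter, Finset.mem_univ, true_and]
  exact hz i

theorem om_h2 (X : Fin 13 → SignType) (hX : X ∈ UL top 4) (Y : Fin 13 → SignType)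
    (hY : Y ∈ UL top 4) (hz : ∀ i, X i = 0 ↔ Y i = 0) (hn : nz X + 1 < 4) (hne : X ≠ Y) :
    ∃ s, X s ≠ 0 ∧ Y s = -X s ∧ flip X s ∈ UL top 4 := by
  have hX0 : X ≠ 0 := ne_zero_of_nz (by omega)
  have hY0 : Y ≠ 0 := ne_zero_of_nz (by rw [← zeros_eq hz]; omega)
  have hcases : nz X = 0 ∨ nz X = 1 ∨ nz X = 2 := by omega
  rcases hcases with h | h | h
  · -- no zeros
    have h1 : ∀ i, X i ≠ 0 := by
      intro i hi
      have h2 : Finset.univ.filter (fun i => X i = 0) = ∅ := Finset.card_eq_zero.mp h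
      have h3 : i ∈ Finset.univ.filter (fun i => X i = 0) := by
        simp [hi]
      rw [h2] at h3
      simp at h3
    exact step hX hX0 hY hY0 hz hne (l := []) (by simp) (fun i => by simp [h1 i]) tab0_iso
      (zf_mem0 hX hX0) (zf_mem0 hY hY0)
  · -- one zero
    obtain ⟨a, ha⟩ := Finset.card_eq_one.mp h
    have hXa : ∀ i, X i = 0 ↔ i = a := by
      intro i
      have : i ∈ Finset.univ.filter (fun i => X i = 0) ↔ i ∈ ({a} : Finset (Fin 13)) := by rw [ha]
      simpa using this
    obtain ⟨e, he, hea⟩ := exists_ent a.isLt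
    have hea' : e.1 < 13 := by rw [hea]; exact a.isLt
    have haa : (⟨e.1, hea'⟩ : Fin 13) = a := Fin.ext hea
    have hX1 : X ⟨e.1, hea'⟩ = 0 := by rw [haa]; exact (hXa a).mpr rfl
    exact step hX hX0 hY hY0 hz hne (l := [e.1])
      (by intro b hb; rw [List.mem_singleton] at hb; omega)
      (fun i => by
        rw [hXa, List.mem_singleton, hea]
        exact Fin.ext_iff) (ent_spec he).2.1
      (mem1 he hX hX0 hea' hX1) (mem1 he hY hY0 hea' ((hz _).mp hX1))
  · -- two zeros
    obtain ⟨a, b, hab, hs⟩ : ∃ a b : Fin 13, a < b ∧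
        Finset.univ.filter (fun i => X i = 0) = {a, b} := by
      obtain ⟨a, b, hab, hs⟩ := Finset.card_eq_two.mp h
      rcases lt_or_gt_of_ne hab with h1 | h1
      · exact ⟨a, b, h1, hs⟩
      · exact ⟨b, a, h1, by rw [hs, Finset.pair_comm]⟩
    have hXa : ∀ i, X i = 0 ↔ i = a ∨ i = b := by
      intro i
      have : i ∈ Finset.univ.filter (fun i => X i = 0) ↔ i ∈ ({a, b} : Finset (Fin 13)) := by
        rw [hs]
      simpa using this
    obtain ⟨e, he, hea⟩ := exists_ent a.isLt
    obtain ⟨he1, he2, he3, he4⟩ := ent_spec he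
    have hea' : e.1 < 13 := by rw [hea]; exact a.isLt
    have haa : (⟨e.1, hea'⟩ : Fin 13) = a := Fin.ext hea
    have hX1 : X ⟨e.1, hea'⟩ = 0 := by rw [haa]; exact (hXa a).mpr (Or.inl rfl)
    obtain ⟨q, hq, hqb⟩ := he4 b b.isLt (by rw [hea]; exact hab)
    have hqb' : q.1 < 13 := by rw [hqb]; exact b.isLt
    have hbb : (⟨q.1, hqb'⟩ : Fin 13) = b := Fin.ext hqb
    have hX2 : X ⟨q.1, hqb'⟩ = 0 := by rw [hbb]; exact (hXa b).mpr (Or.inr rfl)
    exact step hX hX0 hY hY0 hz hne (l := [q.1, e.1])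
      (by
        intro b hb
        simp only [List.mem_cons, List.not_mem_nil, or_false] at hb
        omega)
      (fun i => by
        rw [hXa]
        simp only [List.mem_cons, List.not_mem_nil, or_false]
        rw [hea, hqb, Fin.ext_iff, Fin.ext_iff]
        exact or_comm) (ent2_spec (he3 q hq)).2.1
      (mem2 (he3 q hq) hX hX0 (mem1 he hX hX0 hea' hX1) hea' hX1 hqb' hX2)
      (mem2 (he3 q hq) hY hY0 (mem1 he hY hY0 hea' ((hz _).mp hX1)) hea' ((hz _).mp hX1)
        hqb' ((hz _).mp hX2))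

theorem xor_left_cancel {x y m : ℕ} (h1 : x ^^^ m = y ^^^ m) : x = y := by
  apply Nat.eq_of_testBit_eq
  intro i
  have := congrArg (fun z => z.testBit i) h1
  simp only [Nat.testBit_xor] at this
  revert this
  generalize x.testBit i = a
  generalize y.testBit i = b
  generalize m.testBit i = c
  revert a b c
  decide

theorem om_h3 (X : Fin 13 → SignType) (hX : X ∈ UL top 4) (Y : Fin 13 → SignType)
    (hY : Y ∈ UL top 4) (hz : ∀ i, X i = 0 ↔ Y i = 0) (hn : nz X + 1 = 4) (hne : X ≠ Y) :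
    Y = -X := by
  have hX0 : X ≠ 0 := ne_zero_of_nz (by omega)
  have hY0 : Y ≠ 0 := ne_zero_of_nz (by rw [← zeros_eq hz]; omega)
  have hcard : (Finset.univ.filter (fun i => X i = 0)).card = 3 := by
    unfold nz at hn
    omega
  obtain ⟨a, b, c, hab, hbc, hs⟩ : ∃ a b c : Fin 13, a < b ∧ b < c ∧
      ∀ i, i ∈ Finset.univ.filter (fun i => X i = 0) ↔ i = a ∨ i = b ∨ i = c := by
    let f := Finset.orderEmbOfFin _ hcard
    refine ⟨f 0, f 1, f 2, ?_, ?_, ?_⟩
    · exact f.strictMono (by decide)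
    · exact f.strictMono (by decide)
    · intro i
      have h1 : Set.range f = (Finset.univ.filter (fun i => X i = 0) : Finset (Fin 13)) :=
        Finset.range_orderEmbOfFin _ hcard
      rw [← Finset.mem_coe, ← h1, Set.mem_range]
      constructor
      · rintro ⟨j, rfl⟩
        fin_cases j
        · exact Or.inl rfl
        · exact Or.inr (Or.inl rfl)
        · exact Or.inr (Or.inr rfl)
      · rintro (h | h | h)
        · exact ⟨0, h.symm⟩
        · exact ⟨1, h.symm⟩
        · exact ⟨2, h.symm⟩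
  have hXa : ∀ i, X i = 0 ↔ i = a ∨ i = b ∨ i = c := by
    intro i
    have := hs i
    simpa using this
  obtain ⟨e, he, hea⟩ := exists_ent a.isLt
  obtain ⟨he1, he2, he3, he4⟩ := ent_spec he
  have hea' : e.1 < 13 := by rw [hea]; exact a.isLt
  have haa : (⟨e.1, hea'⟩ : Fin 13) = a := Fin.ext hea
  have hX1 : X ⟨e.1, hea'⟩ = 0 := by rw [haa]; exact (hXa a).mpr (Or.inl rfl)
  obtain ⟨q, hq, hqb⟩ := he4 b b.isLt (by rw [hea]; exact hab)
  obtain ⟨hq1, hq2, hq3, hq4⟩ := ent2_spec (he3 q hq)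
  have hqb' : q.1 < 13 := by rw [hqb]; exact b.isLt
  have hbb : (⟨q.1, hqb'⟩ : Fin 13) = b := Fin.ext hqb
  have hX2 : X ⟨q.1, hqb'⟩ = 0 := by rw [hbb]; exact (hXa b).mpr (Or.inr (Or.inl rfl))
  obtain ⟨w, hw, hwc⟩ := hq4 c c.isLt (by rw [hqb]; exact hbc)
  have hwc' : w.1 < 13 := by rw [hwc]; exact c.isLt
  have hcc : (⟨w.1, hwc'⟩ : Fin 13) = c := Fin.ext hwc
  have hX3 : X ⟨w.1, hwc'⟩ = 0 := by rw [hcc]; exact (hXa c).mpr (Or.inr (Or.inr rfl))
  have m2X := mem2 (he3 q hq) hX hX0 (mem1 he hX hX0 hea' hX1) hea' hX1 hqb' hX2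
  have m2Y := mem2 (he3 q hq) hY hY0 (mem1 he hY hY0 hea' ((hz _).mp hX1)) hea' ((hz _).mp hX1)
        hqb' ((hz _).mp hX2)
  have m3X := mem3 (hq3 w hw) hX hX0 m2X hea' hX1 hqb' hX2 hwc' hX3
  have m3Y := mem3 (hq3 w hw) hY hY0 m2Y hea' ((hz _).mp hX1) hqb' ((hz _).mp hX2)
    hwc' ((hz _).mp hX3)
  have hzne : zf X ≠ zf Y := fun h => hne (zf_inj hz h)
  have hxor : zf X ^^^ zf Y = 8191 ^^^ (2 ^ e.1 ^^^ 2 ^ q.1 ^^^ 2 ^ w.1) := by
    rcases m3X with h1 | h1
    · rcases m3Y with h2 | h2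
      · exact absurd (h1.trans h2.symm) hzne
      · rw [h1, Nat.xor_comm]; exact h2
    · rcases m3Y with h2 | h2
      · rw [h2]; exact h1
      · exact absurd (xor_left_cancel (h1.trans h2.symm)) hzne
  funext i
  by_cases h0 : X i = 0
  · rw [(hz i).mp h0, Pi.neg_apply, h0]; decide
  · have hY' : Y i ≠ 0 := fun h => h0 ((hz i).mpr h)
    have hia : (i : ℕ) ≠ e.1 := by
      intro h
      exact h0 ((hXa i).mpr (Or.inl (Fin.ext (h.trans hea))))
    have hib : (i : ℕ) ≠ q.1 := by
      intro h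
      exact h0 ((hXa i).mpr (Or.inr (Or.inl (Fin.ext (h.trans hqb)))))
    have hic : (i : ℕ) ≠ w.1 := by
      intro h
      exact h0 ((hXa i).mpr (Or.inr (Or.inr (Fin.ext (h.trans hwc)))))
    have h1 := congrArg (fun z => z.testBit (i : ℕ)) hxor
    simp only [Nat.testBit_xor, Nat.testBit_two_pow] at h1
    have h6 : (8191 : ℕ).testBit i = true := by
      have := i.isLt
      interval_cases (i : ℕ) <;> decide
    rw [zf_testBit, zf_testBit, h6] at h1
    simp only [Ne.symm hia, Ne.symm hib, Ne.symm hic, decide_false, Bool.xor_false] at h1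
    rw [Pi.neg_apply]
    revert h1 h0 hY'
    generalize X i = x
    generalize Y i = y
    revert x y
    decide

theorem isOM_L13 : IsOM L13 := isOM_UL top 4 top_neg om_h2 om_h3

theorem nz_tope {T : Fin 13 → SignType} (hT : ∀ e, T e ≠ 0) : nz T = 0 := by
  unfold nz
  rw [Finset.card_eq_zero, Finset.filter_eq_empty_iff]
  intro i _
  exact hT i

theorem tope_ne {T : Fin 13 → SignType} (hT : ∀ e, T e ≠ 0) : T ≠ 0 := by
  rintro rfl
  exact hT 0 rfl

theorem flip_ne {T : Fin 13 → SignType} (hT : ∀ e, T e ≠ 0) (s : Fin 13) (e : Fin 13) :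
    flip T s e ≠ 0 := by
  by_cases h : e = s
  · subst h
    simp only [flip, Function.update_self]
    have := hT e
    revert this
    generalize T e = a
    revert a
    decide
  · simp only [flip, Function.update_of_ne h]
    exact hT e

theorem flip_mem {T : Fin 13 → SignType} (hT : ∀ e, T e ≠ 0) (s : Fin 13)
    (h : topeBits.testBit (zf T ^^^ 2 ^ (s : ℕ)) = true) : flip T s ∈ L13 := by
  apply mem_of
  · rw [nz_tope (flip_ne hT s)]; norm_num
  · intro u hu hui
    have h7 : u = zf T ^^^ 2 ^ (s : ℕ) := by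
      apply eq_of_bits hu (xor_lt (zf_lt T) (two_pow_lt s.isLt))
      intro j hj
      have h9 := hui ⟨j, hj⟩ (flip_ne hT s _)
      have h10 := zf_testBit T ⟨j, hj⟩
      by_cases h : (⟨j, hj⟩ : Fin 13) = s
      · subst h
        have h11 := hT ⟨j, hj⟩
        simp only [flip, Function.update_self] at h9 h10
        rw [h9, xor_bit_self, h10]
        revert h11
        generalize T ⟨j, hj⟩ = a
        revert a
        decide
      · have h8 : j ≠ (s : ℕ) := fun h' => h (Fin.ext h')
        simp only [flip, Function.update_of_ne h] at h9 h10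
        rw [h9, xor_bit_ne h8, h10]
    rw [h7]
    exact h

theorem update_mem {T : Fin 13 → SignType} (hTL : T ∈ L13) (hT : ∀ e, T e ≠ 0) (s : Fin 13)
    (h : topeBits.testBit (zf T ^^^ 2 ^ (s : ℕ)) = true) : Function.update T s 0 ∈ L13 :=
  UL_update hTL (hT s) (flip_mem hT s h) (by rw [nz_tope hT]; norm_num)

theorem good_L13 : Good L13 0 := by
  refine ⟨isOM_L13, ?_, ?_, ?_⟩
  · intro X hX s hs hz
    by_contra h0
    have h1 := nz_lt hX h0
    have h2 : (Finset.image s Finset.univ).card = 4 := by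
      rw [Finset.card_image_of_injective _ hs]; rfl
    have h3 : Finset.image s Finset.univ ⊆ Finset.univ.filter (fun i => X i = 0) := by
      intro i hi
      obtain ⟨j, _, rfl⟩ := Finset.mem_image.mp hi
      simp [hz j]
    have h4 := Finset.card_le_card h3
    unfold nz at h1
    omega
  · intro T hTL hT
    obtain ⟨p, hp, hpt⟩ := zf_mem0 hTL (tope_ne hT)
    have h1 := tab0_four
    rw [List.all_eq_true] at h1
    have h2 := h1 p hp
    rw [decide_eq_true_iff] at h2
    have h3 := tab0_iso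
    unfold chkIso at h3
    rw [List.all_eq_true] at h3
    have h4 := h3 p hp
    rw [Bool.and_eq_true, List.all_eq_true] at h4
    have hnd : ((List.range 12).filter fun s => p.2.testBit (s + 1)).Nodup :=
      List.Nodup.filter _ List.nodup_range
    have hmem : ∀ i : Fin 4, ((List.range 12).filter fun s => p.2.testBit (s + 1)).get
        ⟨i, by omega⟩ < 12 ∧ p.2.testBit (((List.range 12).filter
          fun s => p.2.testBit (s + 1)).get ⟨i, by omega⟩ + 1) = true := by
      intro i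
      have := List.get_mem ((List.range 12).filter fun s => p.2.testBit (s + 1)) ⟨i, by omega⟩
      rw [List.mem_filter, List.mem_range] at this
      exact this
    refine ⟨fun i => ⟨((List.range 12).filter fun s => p.2.testBit (s + 1)).get ⟨i, by omega⟩ + 1,
      by have := (hmem i).1; omega⟩, ?_, ?_⟩
    · intro i j hij
      simp only [Fin.mk.injEq, Nat.add_right_cancel_iff] at hij
      have h5 := List.nodup_iff_injective_get.mp hnd hij
      have h6 := congrArg Fin.val h5
      exact Fin.ext h6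
    · intro i
      refine ⟨?_, ?_⟩
      · intro h
        have := congrArg Fin.val h
        simp at this
      · have h5 := hmem i
        apply update_mem hTL hT
        have hs13 : ((List.range 12).filter fun s => p.2.testBit (s + 1)).get ⟨i, by omega⟩ + 1
            < 13 := by have := h5.1; omega
        have h6 := h4.1 _ (mem_pos hs13)
        rw [h5.2, hpt] at h6
        simp only [Bool.not_true, Bool.false_or] at h6
        exact h6
  · intro T hTL hT hne X hX hle hX0
    by_contra h0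
    apply hne
    refine UL_update hTL (hT 0) ?_ (by rw [nz_tope hT]; norm_num)
    apply mem_of
    · rw [nz_tope (flip_ne hT 0)]; norm_num
    · intro u hu hui
      apply top_of hX h0 hu
      intro i hi
      have hi0 : i ≠ 0 := by rintro rfl; exact hi hX0
      have h1 := hui i (flip_ne hT 0 i)
      simp only [flip, Function.update_of_ne hi0] at h1
      rw [h1]
      rcases hle i with h | h
      · exact absurd h hi
      · rw [h]

end Pool.Agent.H6.LV
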