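import Pool.Agent.H6.LV.Parallel
import Pool.Agent.H6.LV.Data1

/-! The 13 element oriented matroid: covector axioms and the properties needed. -/

set_option autoImplicit false

namespace Pool.Agent.H6.LV

/-- code of a plus set -/
def code (T : Fin 13 → Bool) : ℕ := Nat.ofBits T

theorem code_testBit (T : Fin 13 → Bool) (i : Fin 13) : (code T).testBit i = T i := by
  unfold code
  rw [Nat.testBit_ofBits_lt T i i.isLt]

theorem code_lt (T : Fin 13 → Bool) : code T < 8192 := Nat.ofBits_lt_two_pow T

theorem lt_testBit {u i : ℕ} (hu : u < 8192) (hi : 13 ≤ i) : u.testBit i = false := by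
  apply Nat.testBit_lt_two_pow
  calc u < 8192 := hu
    _ = 2 ^ 13 := by norm_num
    _ ≤ 2 ^ i := Nat.pow_le_pow_right (by norm_num) hi

theorem eq_of_bits {u v : ℕ} (hu : u < 8192) (hv : v < 8192)
    (h : ∀ i < 13, u.testBit i = v.testBit i) : u = v := by
  apply Nat.eq_of_testBit_eq
  intro i
  rcases Nat.lt_or_ge i 13 with hi | hi
  · exact h i hi
  · rw [lt_testBit hu hi, lt_testBit hv hi]

theorem xor_lt {u v : ℕ} (hu : u < 8192) (hv : v < 8192) : u ^^^ v < 8192 :=
  Nat.xor_lt_two_pow (n := 13) hu hv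

theorem two_pow_lt {a : ℕ} (ha : a < 13) : 2 ^ a < 8192 := by
  calc 2 ^ a < 2 ^ 13 := Nat.pow_lt_pow_right (by norm_num) ha
    _ = 8192 := by norm_num

theorem xor_bit_ne {t a i : ℕ} (h : i ≠ a) : (t ^^^ 2 ^ a).testBit i = t.testBit i := by
  rw [Nat.testBit_xor, Nat.testBit_two_pow]
  simp [Ne.symm h]

theorem xor_bit_self {t a : ℕ} : (t ^^^ 2 ^ a).testBit a = !t.testBit a := by
  rw [Nat.testBit_xor, Nat.testBit_two_pow]
  simp

/-- topes -/
def top (T : Fin 13 → Bool) : Prop := topeBits.testBit (code T) = true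

/-- the 13 element oriented matroid -/
def L13 : Set (Fin 13 → SignType) := UL top 4

theorem inA_of (l : List ℕ) : ∀ t < 8192, (∀ a ∈ l, a < 13) →
    (∀ u < 8192, (∀ i < 13, i ∉ l → u.testBit i = t.testBit i) → topeBits.testBit u = true) →
    inA l t = true := by
  induction l with
  | nil =>
    intro t ht _ h
    exact h t ht (fun _ _ _ => rfl)
  | cons a l ih =>
    intro t ht hl h
    have ha : a < 13 := hl a List.mem_cons_self
    have hl' : ∀ b ∈ l, b < 13 := fun b hb => hl b (List.mem_cons_of_mem _ hb)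
    simp only [inA, Bool.and_eq_true]
    refine ⟨ih t ht hl' ?_, ih _ (xor_lt ht (two_pow_lt ha)) hl' ?_⟩
    · intro u hu hui
      apply h u hu
      intro i hi hil
      exact hui i hi (fun h' => hil (List.mem_cons_of_mem _ h'))
    · intro u hu hui
      apply h u hu
      intro i hi hil
      have h1 : i ≠ a := fun h' => hil (h' ▸ List.mem_cons_self)
      rw [hui i hi (fun h' => hil (List.mem_cons_of_mem _ h')), xor_bit_ne h1]

theorem of_inA (l : List ℕ) : ∀ t < 8192, (∀ a ∈ l, a < 13) → inA l t = true →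
    ∀ u < 8192, (∀ i < 13, i ∉ l → u.testBit i = t.testBit i) → topeBits.testBit u = true := by
  induction l with
  | nil =>
    intro t ht _ h u hu hui
    have : u = t := eq_of_bits hu ht (fun i hi => hui i hi (by simp))
    rw [this]; exact h
  | cons a l ih =>
    intro t ht hl h u hu hui
    have ha : a < 13 := hl a List.mem_cons_self
    have hl' : ∀ b ∈ l, b < 13 := fun b hb => hl b (List.mem_cons_of_mem _ hb)
    simp only [inA, Bool.and_eq_true] at h
    by_cases hc : u.testBit a = t.testBit a
    · apply ih t ht hl' h.1 u hu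
      intro i hi hil
      by_cases hia : i = a
      · subst hia; exact hc
      · exact hui i hi (by
          intro h'
          rcases List.mem_cons.mp h' with h' | h'
          · exact hia h'
          · exact hil h')
    · apply ih _ (xor_lt ht (two_pow_lt ha)) hl' h.2 u hu
      intro i hi hil
      by_cases hia : i = a
      · subst hia
        rw [xor_bit_self]
        revert hc
        generalize u.testBit i = x
        generalize t.testBit i = y
        revert x y
        decide
      · rw [xor_bit_ne hia]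
        exact hui i hi (by
          intro h'
          rcases List.mem_cons.mp h' with h' | h'
          · exact hia h'
          · exact hil h')

/-- membership of a code in a table -/
def Mem (T : List (ℕ × ℕ)) (t : ℕ) : Prop := ∃ p ∈ T, p.1 = t

theorem bits_testBit (T : List (ℕ × ℕ)) (u : ℕ) : (bits T).testBit u = true ↔ Mem T u := by
  induction T with
  | nil => simp [bits, Mem]
  | cons p T ih =>
    have h1 : bits (p :: T) = 2 ^ p.1 ||| bits T := rfl
    rw [h1, Nat.testBit_or, Bool.or_eq_true, Nat.testBit_two_pow, decide_eq_true_iff, ih]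
    unfold Mem
    constructor
    · rintro (h | ⟨q, hq, hqu⟩)
      · exact ⟨p, List.mem_cons_self, h⟩
      · exact ⟨q, List.mem_cons_of_mem _ hq, hqu⟩
    · rintro ⟨q, hq, hqu⟩
      rcases List.mem_cons.mp hq with rfl | hq
      · exact Or.inl hqu
      · exact Or.inr ⟨q, hq, hqu⟩

theorem cut_testBit (t f u : ℕ) (l : List ℕ) : ∀ M : ℕ,
    (∀ s ∈ l, f.testBit s = true → u.testBit s = t.testBit s) →
    (∀ s ∈ l, (half s).testBit u = u.testBit s) → M.testBit u = true →
    (cut t f l M).testBit u = true := by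
  induction l with
  | nil => intro M _ _ h; exact h
  | cons s l ih =>
    intro M h hh hM
    have h1 := h s List.mem_cons_self
    have h2 := hh s List.mem_cons_self
    simp only [cut]
    apply ih _ (fun s' hs' => h s' (List.mem_cons_of_mem _ hs'))
      (fun s' hs' => hh s' (List.mem_cons_of_mem _ hs'))
    cases hf : f.testBit s with
    | false => simpa using hM
    | true =>
      have h3 := h1 hf
      cases ht : t.testBit s with
      | true =>
        simp only [cond_true, Nat.testBit_and, hM, h2, h3, ht, Bool.and_self]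
      | false =>
        simp only [cond_true, cond_false, Nat.testBit_xor, Nat.testBit_and, hM, h2, h3, ht,
          Bool.and_false, Bool.xor_false]

theorem mem_pos {s : ℕ} (hs : s < 13) : s ∈ pos := by
  unfold pos
  interval_cases s <;> simp

theorem pos_lt {s : ℕ} (hs : s ∈ pos) : s < 13 := by
  simp only [pos, List.mem_cons, List.not_mem_nil, or_false] at hs
  omega

theorem half_tab0 {u : ℕ} (hu : Mem tab0 u) {s : ℕ} (hs : s ∈ pos) :
    (half s).testBit u = u.testBit s := by
  obtain ⟨p, hp, rfl⟩ := hu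
  have := tab0_half
  rw [List.all_eq_true] at this
  have h1 := this p hp
  rw [List.all_eq_true] at h1
  have h2 := h1 s hs
  simpa using h2

theorem iso_apply {l : List ℕ} {T : List (ℕ × ℕ)} (hc : chkIso l T = true) {t u : ℕ}
    (ht : Mem T t) (hu : Mem T u) (hu0 : Mem tab0 u) (hne : t ≠ u) :
    ∃ s < 13, u.testBit s ≠ t.testBit s ∧ inA l (t ^^^ 2 ^ s) = true := by
  obtain ⟨p, hp, rfl⟩ := ht
  unfold chkIso at hc
  rw [List.all_eq_true] at hc
  have h1 := hc p hp
  rw [Bool.and_eq_true, List.all_eq_true] at h1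
  obtain ⟨h1, h2⟩ := h1
  by_contra hcon
  have h3 : ∀ s ∈ pos, p.2.testBit s = true → u.testBit s = p.1.testBit s := by
    intro s hs hf
    by_contra hd
    apply hcon
    refine ⟨s, pos_lt hs, hd, ?_⟩
    have := h1 s hs
    simpa [hf] using this
  have h4 := cut_testBit p.1 p.2 u pos (bits T) h3 (fun s hs => half_tab0 hu0 hs)
    ((bits_testBit T u).mpr hu)
  rw [Nat.eq_of_beq_eq_true h2, Nat.testBit_two_pow, decide_eq_true_iff] at h4
  exact hne h4

theorem sub_apply {l : List ℕ} {a : ℕ} {S T : List (ℕ × ℕ)} (hc : chkSub l a S T = true) {t : ℕ}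
    (ht : Mem S t) (h0 : t.testBit a = false) (h1 : inA l (t ^^^ 2 ^ a) = true) : Mem T t := by
  obtain ⟨p, hp, rfl⟩ := ht
  unfold chkSub at hc
  rw [List.all_eq_true] at hc
  have h2 := hc p hp
  rw [h0, h1] at h2
  simp only [Bool.not_true, Bool.false_or] at h2
  exact (bits_testBit T p.1).mp h2

theorem mem_tab0 {t : ℕ} (ht : topeBits.testBit t = true) : Mem tab0 t := by
  rw [← Nat.eq_of_beq_eq_true tab0_bits] at ht
  exact (bits_testBit tab0 t).mp ht

/-- filling of the zeros of `X` by minus signs -/
def zf (X : Fin 13 → SignType) : ℕ := code (fun i => decide (X i = 1))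

theorem zf_testBit (X : Fin 13 → SignType) (i : Fin 13) :
    (zf X).testBit i = decide (X i = 1) := code_testBit _ i

theorem zf_lt (X : Fin 13 → SignType) : zf X < 8192 := code_lt _

theorem top_of {X : Fin 13 → SignType} (hX : X ∈ L13) (h0 : X ≠ 0) {u : ℕ} (hu : u < 8192)
    (h : ∀ i : Fin 13, X i ≠ 0 → u.testBit i = decide (X i = 1)) : topeBits.testBit u = true := by
  rcases hX with hX | ⟨_, hX⟩
  · exact absurd hX h0
  · have h1 := hX (fun i => u.testBit i) (by
      intro i hi
      show u.testBit i = true ↔ X i = 1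
      rw [h i hi, decide_eq_true_iff])
    have h2 : code (fun i : Fin 13 => u.testBit i) = u := by
      apply eq_of_bits (code_lt _) hu
      intro i hi
      exact code_testBit _ ⟨i, hi⟩
    unfold top at h1
    rwa [h2] at h1

theorem nz_lt {X : Fin 13 → SignType} (hX : X ∈ L13) (h0 : X ≠ 0) : nz X < 4 := by
  rcases hX with hX | ⟨hX, _⟩
  · exact absurd hX h0
  · exact hX

theorem mem_of {X : Fin 13 → SignType} (hn : nz X < 4)
    (h : ∀ u < 8192, (∀ i : Fin 13, X i ≠ 0 → u.testBit i = decide (X i = 1)) →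
      topeBits.testBit u = true) : X ∈ L13 := by
  right
  refine ⟨hn, fun T hT => ?_⟩
  apply h (code T) (code_lt T)
  intro i hi
  rw [code_testBit]
  have := hT i hi
  rw [Bool.eq_iff_iff, decide_eq_true_iff]
  exact this

/-- if the positions in `l` are zeros of `X`, all fillings there are topes -/
theorem inA_zf {X : Fin 13 → SignType} (hX : X ∈ L13) (h0 : X ≠ 0) {l : List ℕ}
    (hl : ∀ a ∈ l, a < 13) (hz : ∀ i : Fin 13, (i : ℕ) ∈ l → X i = 0) :
    inA l (zf X) = true := by
  apply inA_of l _ (zf_lt X) hl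
  intro u hu hui
  apply top_of hX h0 hu
  intro i hi
  rw [hui i i.isLt (fun h => hi (hz i h)), zf_testBit]

theorem zf_zero {X : Fin 13 → SignType} {i : Fin 13} (h : X i = 0) :
    (zf X).testBit i = false := by
  rw [zf_testBit, h]; decide

theorem zf_mem0 {X : Fin 13 → SignType} (hX : X ∈ L13) (h0 : X ≠ 0) : Mem tab0 (zf X) :=
  mem_tab0 (top_of hX h0 (zf_lt X) (fun i _ => zf_testBit X i))

theorem zf_inj {X Y : Fin 13 → SignType} (hz : ∀ i, X i = 0 ↔ Y i = 0) (h : zf X = zf Y) :
    X = Y := by
  funext i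
  have h1 := zf_testBit X i
  rw [h, zf_testBit] at h1
  have h2 := hz i
  revert h1 h2
  generalize X i = a
  generalize Y i = b
  revert a b
  decide

/-- one step of the walk -/
theorem step {X Y : Fin 13 → SignType} (hX : X ∈ L13) (hX0 : X ≠ 0) (hY : Y ∈ L13) (hY0 : Y ≠ 0)
    (hz : ∀ i, X i = 0 ↔ Y i = 0) (hne : X ≠ Y) {l : List ℕ} (hl : ∀ a ∈ l, a < 13)
    (hlz : ∀ i : Fin 13, X i = 0 ↔ (i : ℕ) ∈ l) {T : List (ℕ × ℕ)} (hc : chkIso l T = true)
    (ht : Mem T (zf X)) (hu : Mem T (zf Y)) :
    ∃ s, X s ≠ 0 ∧ Y s = -X s ∧ flip X s ∈ L13 := by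
  obtain ⟨s, hs, hd, hin⟩ := iso_apply hc ht hu (zf_mem0 hY hY0) (fun h => hne (zf_inj hz h))
  have hd' : decide (Y ⟨s, hs⟩ = 1) ≠ decide (X ⟨s, hs⟩ = 1) := by
    have h1 := zf_testBit Y ⟨s, hs⟩
    have h2 := zf_testBit X ⟨s, hs⟩
    simp only at h1 h2
    rw [← h1, ← h2]; exact hd
  have hX1 : X ⟨s, hs⟩ ≠ 0 := by
    intro h
    have h' := (hz _).mp h
    rw [h, h'] at hd'
    exact hd' rfl
  have hY1 : Y ⟨s, hs⟩ ≠ 0 := fun h => hX1 ((hz _).mpr h)
  have hsl : s ∉ l := fun h => hX1 ((hlz ⟨s, hs⟩).mpr h)
  refine ⟨⟨s, hs⟩, hX1, ?_, ?_⟩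
  · revert hX1 hY1 hd'
    generalize X ⟨s, hs⟩ = a
    generalize Y ⟨s, hs⟩ = b
    revert a b
    decide
  · apply mem_of
    · have : nz (flip X ⟨s, hs⟩) ≤ nz X := by
        apply nz_le
        intro i hi
        by_cases h : i = ⟨s, hs⟩
        · subst h
          simp only [flip, Function.update_self] at hi
          exfalso
          apply hX1
          revert hi
          generalize X ⟨s, hs⟩ = a
          revert a
          decide
        · simpa only [flip, Function.update_of_ne h] using hi
      exact lt_of_le_of_lt this (nz_lt hX hX0)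
    · intro u hu' hui
      apply of_inA l _ (xor_lt (zf_lt X) (two_pow_lt hs)) hl hin u hu'
      intro i hi hil
      have hXi : X ⟨i, hi⟩ ≠ 0 := fun h => hil ((hlz ⟨i, hi⟩).mp h)
      by_cases his : i = s
      · subst his
        rw [xor_bit_self]
        have h1 := zf_testBit X ⟨i, hs⟩
        have h2 := hui ⟨i, hs⟩ (by
          simp only [flip, Function.update_self]
          intro h
          apply hX1
          revert h
          generalize X ⟨i, hs⟩ = a
          revert a
          decide)
        simp only at h1 h2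
        rw [h1, h2]
        simp only [flip, Function.update_self]
        revert hX1
        generalize X ⟨i, hs⟩ = a
        revert a
        decide
      · rw [xor_bit_ne his]
        have hne' : (⟨i, hi⟩ : Fin 13) ≠ ⟨s, hs⟩ := fun h => his (Fin.mk.inj_iff.mp h)
        have h2 := hui ⟨i, hi⟩ (by
          simp only [flip, Function.update_of_ne hne']
          exact hXi)
        simp only [flip, Function.update_of_ne hne'] at h2
        have h1 := zf_testBit X ⟨i, hi⟩
        simp only at h1
        rw [h1, h2]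

theorem exists_ent {a : ℕ} (ha : a < 13) : ∃ e ∈ ents, e.1 = a := by
  have h := ents_all
  rw [List.all_eq_true] at h
  have h1 := h a (mem_pos ha)
  rw [List.any_eq_true] at h1
  obtain ⟨e, he, h2⟩ := h1
  exact ⟨e, he, Nat.eq_of_beq_eq_true h2⟩

end Pool.Agent.H6.LV
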