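import Pool.Agent.H6.LV.Basic

/-! Parallel connection of two copies of an oriented matroid at an element `o`. -/

set_option autoImplicit false

namespace Pool.Agent.H6.LV

variable {α β : Type*}

/-- two copies of `α` glued at `o` -/
structure Glue (l r : α → β) (o : α) : Prop where
  hl : Function.Injective l
  hr : Function.Injective r
  ho : l o = r o
  hlr : ∀ i j, l i = r j → i = o ∧ j = o
  hs : ∀ b, (∃ i, b = l i) ∨ (∃ j, b = r j)

theorem Glue.symm {l r : α → β} {o : α} (h : Glue l r o) : Glue r l o :=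
  ⟨h.hr, h.hl, h.ho.symm, fun i j hij => (h.hlr j i hij.symm).symm, fun b => (h.hs b).symm⟩

/-- covectors of the parallel connection -/
def PC (L : Set (α → SignType)) (l r : α → β) : Set (β → SignType) :=
  {X | X ∘ l ∈ L ∧ X ∘ r ∈ L}

theorem Glue.exists_glue {l r : α → β} {o : α} (h : Glue l r o) (X₁ X₂ : α → SignType)
    (h12 : X₁ o = X₂ o) : ∃ X : β → SignType, X ∘ l = X₁ ∧ X ∘ r = X₂ := by
  classical
  refine ⟨Function.extend l X₁ (Function.extend r X₂ 0), ?_, ?_⟩
  · funext i
    simp only [Function.comp_apply]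
    exact h.hl.extend_apply _ _ _
  · funext j
    simp only [Function.comp_apply]
    by_cases hj : j = o
    · subst hj
      rw [← h.ho, h.hl.extend_apply, h12]
    · rw [Function.extend_apply', h.hr.extend_apply]
      rintro ⟨i, hi⟩
      exact hj (h.hlr i j hi).2

theorem comp_comp (X Y : β → SignType) (l : α → β) :
    comp X Y ∘ l = comp (X ∘ l) (Y ∘ l) := rfl

/-- elimination in the parallel connection at an element of the first copy -/
theorem PC_elim_left {L : Set (α → SignType)} (hL : IsOM L) {l r : α → β} {o : α}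
    (h : Glue l r o) {X Y : β → SignType} (hX : X ∈ PC L l r) (hY : Y ∈ PC L l r) (i : α)
    (he : X (l i) ≠ 0) (hYe : Y (l i) = -X (l i)) :
    ∃ Z ∈ PC L l r, Z (l i) = 0 ∧ ∀ f : β, ¬ (X f ≠ 0 ∧ Y f = -X f) → Z f = comp X Y f := by
  obtain ⟨Z₁, hZ₁, hZ₁e, hZ₁f⟩ := hL.elim _ hX.1 _ hY.1 i he hYe
  -- it suffices to find a suitable second part
  suffices hsuff : ∃ Z₂ ∈ L, Z₂ o = Z₁ o ∧
      ∀ f, ¬ ((X ∘ r) f ≠ 0 ∧ (Y ∘ r) f = -(X ∘ r) f) → Z₂ f = comp (X ∘ r) (Y ∘ r) f by
    obtain ⟨Z₂, hZ₂, hZ₂o, hZ₂f⟩ := hsuff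
    obtain ⟨Z, hZl, hZr⟩ := h.exists_glue Z₁ Z₂ hZ₂o.symm
    refine ⟨Z, ⟨by rw [hZl]; exact hZ₁, by rw [hZr]; exact hZ₂⟩, ?_, ?_⟩
    · have := congrFun hZl i
      simp only [Function.comp_apply] at this
      rw [this]; exact hZ₁e
    · intro f hf
      rcases h.hs f with ⟨j, rfl⟩ | ⟨j, rfl⟩
      · have := congrFun hZl j
        simp only [Function.comp_apply] at this
        rw [this]; exact hZ₁f j hf
      · have := congrFun hZr j
        simp only [Function.comp_apply] at this
        rw [this]; exact hZ₂f j hf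
  by_cases hs : X (l o) ≠ 0 ∧ Y (l o) = -X (l o)
  · -- `o` separates
    have hXr : (X ∘ r) o = X (l o) := by simp [h.ho]
    have hYr : (Y ∘ r) o = Y (l o) := by simp [h.ho]
    have hYo : Y (l o) ≠ 0 := by
      rw [hs.2]; intro h0; apply hs.1; revert h0; generalize X (l o) = a; revert a; decide
    by_cases h0 : Z₁ o = 0
    · obtain ⟨Z₂, hZ₂, hZ₂e, hZ₂f⟩ := hL.elim _ hX.2 _ hY.2 o (by rw [hXr]; exact hs.1)
        (by rw [hXr, hYr]; exact hs.2)
      exact ⟨Z₂, hZ₂, by rw [hZ₂e, h0], hZ₂f⟩
    · by_cases h1 : Z₁ o = X (l o)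
      · refine ⟨comp (X ∘ r) (Y ∘ r), hL.cmp _ hX.2 _ hY.2, ?_, fun f _ => rfl⟩
        simp only [comp]
        rw [hXr, if_neg hs.1, h1]
      · refine ⟨comp (Y ∘ r) (X ∘ r), hL.cmp _ hY.2 _ hX.2, ?_, ?_⟩
        · simp only [comp]
          rw [hYr, if_neg hYo, hs.2]
          have hx := hs.1
          revert h0 h1 hx
          generalize Z₁ o = a
          generalize X (l o) = b
          revert a b
          decide
        · intro f
          simp only [comp]
          generalize (X ∘ r) f = a
          generalize (Y ∘ r) f = b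
          revert a b
          decide
  · refine ⟨comp (X ∘ r) (Y ∘ r), hL.cmp _ hX.2 _ hY.2, ?_, fun f _ => rfl⟩
    have := hZ₁f o hs
    rw [this]
    simp only [comp, Function.comp_apply, h.ho]

theorem PC_swap (L : Set (α → SignType)) (l r : α → β) : PC L l r = PC L r l := by
  ext X
  exact and_comm

theorem isOM_PC {L : Set (α → SignType)} (hL : IsOM L) {l r : α → β} {o : α}
    (h : Glue l r o) : IsOM (PC L l r) := by
  refine ⟨⟨hL.zero, hL.zero⟩, fun X hX => ⟨hL.neg _ hX.1, hL.neg _ hX.2⟩,
    fun X hX Y hY => ⟨hL.cmp _ hX.1 _ hY.1, hL.cmp _ hX.2 _ hY.2⟩, ?_⟩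
  intro X hX Y hY e he hYe
  rcases h.hs e with ⟨i, rfl⟩ | ⟨i, rfl⟩
  · exact PC_elim_left hL h hX hY i he hYe
  · rw [PC_swap] at hX hY ⊢
    exact PC_elim_left hL h.symm hX hY i he hYe

/-! ### Boolean face lattices -/

/-- `X` is a face of `T` -/
def Le (X T : β → SignType) : Prop := ∀ e, X e = 0 ∨ X e = T e

/-- the tope `T` is simplicial: Boolean face lattice -/
def Boolean (L : Set (β → SignType)) (T : β → SignType) : Prop :=
  ∃ k : ℕ, ∃ g : (β → SignType) → Finset (Fin k),
      Set.BijOn g {X | X ∈ L ∧ ∀ e, X e = 0 ∨ X e = T e} Set.univ ∧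
      ∀ X ∈ L, ∀ Y ∈ L, (∀ e, X e = 0 ∨ X e = T e) → (∀ e, Y e = 0 ∨ Y e = T e) →
        ((∀ e, X e = 0 ∨ X e = Y e) ↔ g X ⊆ g Y)

/-- in a Boolean face lattice four facets have a common face not in a fifth facet -/
theorem Boolean.indep [DecidableEq β] {L : Set (β → SignType)} {T : β → SignType} (hTL : T ∈ L)
    (hT : ∀ e, T e ≠ 0) (hB : Boolean L T) {m : ℕ} (b : Fin m → β)
    (hb : ∀ i, Function.update T (b i) 0 ∈ L) (b' : β) (hb' : Function.update T b' 0 ∈ L)
    (hne : ∀ i, b i ≠ b') : ∃ X ∈ L, Le X T ∧ (∀ i, X (b i) = 0) ∧ X b' ≠ 0 := by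
  obtain ⟨k, g, ⟨hmaps, hinj, hsurj⟩, hord⟩ := hB
  -- faces
  have hface : ∀ c, Function.update T c 0 ∈ L → Function.update T c 0 ∈
      {X | X ∈ L ∧ ∀ e, X e = 0 ∨ X e = T e} := by
    intro c hc
    refine ⟨hc, fun e => ?_⟩
    by_cases h : e = c
    · subst h; left; simp
    · right; rw [Function.update_of_ne h]
  have hTT : T ∈ {X | X ∈ L ∧ ∀ e, X e = 0 ∨ X e = T e} := ⟨hTL, fun e => Or.inr rfl⟩
  have hcoat : ∀ c, Function.update T c 0 ∈ L → ∃ x : Fin k, g (Function.update T c 0) =
      Finset.univ.erase x := by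
    intro c hc
    have hcF := hface c hc
    have hne1 : g (Function.update T c 0) ≠ Finset.univ := by
      intro h
      obtain ⟨U, hU, hgU⟩ := hsurj (Set.mem_univ (Finset.univ : Finset (Fin k)))
      have h1 : g T ⊆ g (Function.update T c 0) := by rw [h]; exact Finset.subset_univ _
      have h2 := (hord T hTT.1 _ hcF.1 hTT.2 hcF.2).mpr h1 c
      rcases h2 with h2 | h2
      · exact hT c h2
      · simp only [Function.update_self] at h2
        exact hT c h2
    obtain ⟨x, hx⟩ : ∃ x, x ∉ g (Function.update T c 0) := by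
      by_contra hcon
      exact hne1 (Finset.eq_univ_of_forall (fun x => by
        by_contra hx
        exact hcon ⟨x, hx⟩))
    refine ⟨x, ?_⟩
    -- `insert x (g c)` is `univ`
    obtain ⟨U, hU, hgU⟩ := hsurj (Set.mem_univ (Finset.univ.erase x))
    have hsub : g (Function.update T c 0) ⊆ g U := by
      rw [hgU]
      intro y hy
      rw [Finset.mem_erase]
      refine ⟨?_, Finset.mem_univ _⟩
      rintro rfl
      exact hx hy
    have hle := (hord _ hcF.1 U hU.1 hcF.2 hU.2).mpr hsub
    have hUe : ∀ e, e ≠ c → U e = T e := by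
      intro e he
      have := hle e
      rw [Function.update_of_ne he] at this
      rcases this with h | h
      · exact absurd h (hT e)
      · exact h.symm
    rcases hU.2 c with h0 | h0
    · have : U = Function.update T c 0 := by
        funext e
        by_cases he : e = c
        · subst he; rw [h0]; simp
        · rw [Function.update_of_ne he]; exact hUe e he
      rw [← this]; exact hgU
    · have : U = T := by
        funext e
        by_cases he : e = c
        · subst he; exact h0
        · exact hUe e he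
      exfalso
      rw [this] at hgU
      -- g T = univ
      obtain ⟨V, hV, hgV⟩ := hsurj (Set.mem_univ (Finset.univ : Finset (Fin k)))
      have h1 : g V ⊆ g T := (hord V hV.1 T hTT.1 hV.2 hTT.2).mp hV.2
      rw [hgV, hgU] at h1
      exact Finset.notMem_erase x _ (h1 (Finset.mem_univ x))
  haveI : Nonempty (Fin k) := ⟨(hcoat b' hb').choose⟩
  choose! x hx using hcoat
  obtain ⟨X, hX, hgX⟩ := hsurj (Set.mem_univ
    (Finset.univ \ Finset.image (fun i => x (b i)) Finset.univ))
  have hxne : ∀ i, x (b i) ≠ x b' := by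
    intro i h
    have h1 : g (Function.update T (b i) 0) = g (Function.update T b' 0) := by
      rw [hx _ (hb i), hx _ hb', h]
    have h2 := hinj (hface _ (hb i)) (hface _ hb') h1
    have h3 := congrFun h2 (b i)
    rw [Function.update_self, Function.update_of_ne (hne i)] at h3
    exact hT _ h3.symm
  refine ⟨X, hX.1, hX.2, ?_, ?_⟩
  · intro i
    have hsub : g X ⊆ g (Function.update T (b i) 0) := by
      rw [hgX, hx _ (hb i)]
      intro y hy
      rw [Finset.mem_erase]
      rw [Finset.mem_sdiff] at hy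
      refine ⟨?_, Finset.mem_univ _⟩
      rintro rfl
      exact hy.2 (Finset.mem_image.mpr ⟨i, Finset.mem_univ _, rfl⟩)
    have := (hord X hX.1 _ (hface _ (hb i)).1 hX.2 (hface _ (hb i)).2).mpr hsub (b i)
    simpa using this
  · intro h0
    have hle : ∀ e, X e = 0 ∨ X e = Function.update T b' 0 e := by
      intro e
      by_cases he : e = b'
      · subst he; left; exact h0
      · rw [Function.update_of_ne he]; exact hX.2 e
    have hsub := (hord X hX.1 _ hb' hX.2 (hface _ hb').2).mp hle
    rw [hgX, hx _ hb'] at hsub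
    have hmem : x b' ∈ Finset.univ \ Finset.image (fun i => x (b i)) Finset.univ := by
      rw [Finset.mem_sdiff]
      refine ⟨Finset.mem_univ _, ?_⟩
      intro h
      obtain ⟨i, _, hi⟩ := Finset.mem_image.mp h
      exact hxne i hi
    exact Finset.notMem_erase _ _ (hsub hmem)

/-- the properties of the small oriented matroid that are used -/
structure Good [DecidableEq α] (L : Set (α → SignType)) (o : α) : Prop where
  om : IsOM L
  four : ∀ X ∈ L, ∀ s : Fin 4 → α, Function.Injective s → (∀ i, X (s i) = 0) → X = 0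
  facets : ∀ T ∈ L, (∀ e, T e ≠ 0) → ∃ s : Fin 4 → α, Function.Injective s ∧
    ∀ i, s i ≠ o ∧ Function.update T (s i) 0 ∈ L
  base : ∀ T ∈ L, (∀ e, T e ≠ 0) → Function.update T o 0 ∉ L → ∀ X ∈ L, Le X T → X o = 0 → X = 0

theorem update_comp_left [DecidableEq α] [DecidableEq β] {l : α → β} (hl : Function.Injective l)
    (T : β → SignType) (i : α) (a : SignType) :
    Function.update T (l i) a ∘ l = Function.update (T ∘ l) i a := by
  funext j
  simp only [Function.comp_apply]
  by_cases h : j = i
  · subst h; simp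
  · rw [Function.update_of_ne h, Function.update_of_ne (fun h' => h (hl h'))]
    rfl

theorem update_comp_ne [DecidableEq β] {l : α → β} (T : β → SignType) (b : β) (a : SignType)
    (hb : ∀ i, l i ≠ b) : Function.update T b a ∘ l = T ∘ l := by
  funext j
  simp only [Function.comp_apply]
  rw [Function.update_of_ne (hb j)]

/-- if `o` is not a facet of the second part, the tope is not simplicial -/
theorem not_boolean_of_right [DecidableEq α] [DecidableEq β] {L : Set (α → SignType)} {o : α}
    (hG : Good L o) {l r : α → β} (h : Glue l r o) {T : β → SignType} (hTL : T ∈ PC L l r)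
    (hT : ∀ e, T e ≠ 0) (h2 : Function.update (T ∘ r) o 0 ∉ L) : ¬ Boolean (PC L l r) T := by
  intro hB
  obtain ⟨s, hs, hs'⟩ := hG.facets (T ∘ l) hTL.1 (fun e => hT _)
  obtain ⟨s2, _, hs2'⟩ := hG.facets (T ∘ r) hTL.2 (fun e => hT _)
  obtain ⟨X, hX, hle, hz, hnz⟩ := hB.indep hTL hT (fun i => l (s i))
    (by
      intro i
      refine ⟨?_, ?_⟩
      · rw [update_comp_left h.hl]; exact (hs' i).2
      · rw [update_comp_ne]
        · exact hTL.2
        · intro j hj
          exact (hs' i).1 (h.hlr _ _ hj.symm).1) (r (s2 0))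
    (by
      refine ⟨?_, ?_⟩
      · rw [update_comp_ne]
        · exact hTL.1
        · intro j hj
          exact (hs2' 0).1 (h.hlr _ _ hj).2
      · rw [update_comp_left h.hr]; exact (hs2' 0).2)
    (by
      intro i hi
      exact (hs' i).1 (h.hlr _ _ hi).1)
  have hX1 : X ∘ l = 0 := hG.four _ hX.1 s hs (fun i => hz i)
  have hXo : (X ∘ r) o = 0 := by
    have := congrFun hX1 o
    simp only [Function.comp_apply, Pi.zero_apply] at this ⊢
    rw [← h.ho]; exact this
  have hX2 := hG.base (T ∘ r) hTL.2 (fun e => hT _) h2 (X ∘ r) hX.2 (fun e => hle _) hXo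
  exact hnz (congrFun hX2 (s2 0))

/-- the parallel connection of two copies of a good oriented matroid has no simplicial tope -/
theorem not_boolean [DecidableEq α] [DecidableEq β] {L : Set (α → SignType)} {o : α}
    (hG : Good L o) {l r : α → β} (h : Glue l r o) {T : β → SignType} (hTL : T ∈ PC L l r)
    (hT : ∀ e, T e ≠ 0) : ¬ Boolean (PC L l r) T := by
  by_cases h2 : Function.update (T ∘ r) o 0 ∈ L
  · by_cases h1 : Function.update (T ∘ l) o 0 ∈ L
    · intro hB
      obtain ⟨s, hs, hs'⟩ := hG.facets (T ∘ l) hTL.1 (fun e => hT _)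
      obtain ⟨X, hX, hle, hz, hnz⟩ := hB.indep hTL hT (fun i => l (s i))
        (by
          intro i
          refine ⟨?_, ?_⟩
          · rw [update_comp_left h.hl]; exact (hs' i).2
          · rw [update_comp_ne]
            · exact hTL.2
            · intro j hj
              exact (hs' i).1 (h.hlr _ _ hj.symm).1) (l o)
        (by
          refine ⟨?_, ?_⟩
          · rw [update_comp_left h.hl]; exact h1
          · rw [h.ho, update_comp_left h.hr]; exact h2)
        (by
          intro i hi
          exact (hs' i).1 (h.hl hi))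
      have hX1 : X ∘ l = 0 := hG.four _ hX.1 s hs (fun i => hz i)
      exact hnz (congrFun hX1 o)
    · rw [PC_swap] at hTL ⊢
      exact not_boolean_of_right hG h.symm hTL hT h1
  · exact not_boolean_of_right hG h hTL hT h2

end Pool.Agent.H6.LV
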