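import Pool.Agent.H6.LV.Final

/-! Elements `0, 1, 2, 3` are independent in `L13`; flips at facets. -/

set_option autoImplicit false
set_option maxRecDepth 100000

namespace Pool.Agent.H6.LV

/-- all sign patterns on the positions `0, 1, 2, 3` occur -/
theorem tab0_quads : ((List.range 16).all fun m => tab0.any fun p =>
    Nat.beq (p.1 % 16) m && Nat.blt p.1 8192) = true := by
  decide +kernel

theorem mem_of_tab0 {p : ℕ × ℕ} (hp : p ∈ tab0) :
    (fun e : Fin 13 => sg (p.1.testBit e)) ∈ L13 := by
  have hnz : ∀ e : Fin 13, sg (p.1.testBit e) ≠ 0 := by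
    intro e
    generalize p.1.testBit e = c
    revert c
    decide
  apply mem_of
  · rw [nz_tope hnz]; norm_num
  · intro u hu hui
    have hlt : p.1 < 8192 := by
      have h6 := tab0_lt
      rw [List.all_eq_true] at h6
      have h7 := h6 p hp
      exact Nat.le_of_ble_eq_true h7
    have : u = p.1 := by
      apply eq_of_bits hu hlt
      intro e he
      have h8 := hui ⟨e, he⟩ (hnz ⟨e, he⟩)
      simp only at h8
      rw [h8]
      generalize p.1.testBit e = c
      revert c
      decide
    rw [this, ← Nat.eq_of_beq_eq_true tab0_bits]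
    exact (bits_testBit tab0 p.1).mpr ⟨p, hp, rfl⟩

/-- the independent set used -/
def I4 : Finset (Fin 13) := {0, 1, 2, 3}

theorem full13 (s : Fin 13 → SignType) (hs : ∀ e ∈ I4, s e ≠ 0) :
    ∃ X ∈ L13, ∀ e ∈ I4, X e = s e := by
  let m : ℕ := Nat.ofBits (fun i : Fin 4 => decide (s ⟨i, by omega⟩ = 1))
  have hm : m < 16 := Nat.ofBits_lt_two_pow _
  have h := tab0_quads
  rw [List.all_eq_true] at h
  have h1 := h m (List.mem_range.mpr hm)
  rw [List.any_eq_true] at h1
  obtain ⟨p, hp, h2⟩ := h1
  rw [Bool.and_eq_true] at h2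
  have h3 : p.1 % 16 = m := Nat.eq_of_beq_eq_true h2.1
  refine ⟨_, mem_of_tab0 hp, ?_⟩
  intro e he
  have he4 : (e : ℕ) < 4 := by
    revert he
    unfold I4
    revert e
    decide
  have h4 : p.1.testBit e = decide (s e = 1) := by
    have h5 : (p.1 % 2 ^ 4).testBit e = p.1.testBit e := by
      rw [Nat.testBit_mod_two_pow]
      simp [he4]
    rw [← h5]
    have h6 : p.1 % 2 ^ 4 = m := h3
    rw [h6]
    have h7 := Nat.testBit_ofBits_lt (fun i : Fin 4 => decide (s ⟨i, by omega⟩ = 1)) e he4
    exact h7
  show sg (p.1.testBit e) = s e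
  rw [h4]
  have h8 := hs e he
  revert h8
  generalize s e = a
  revert a
  decide

/-- if all nowhere zero sign vectors on `I` are restrictions of covectors then all sign vectors on
`I` are -/
theorem extend_all {α : Type*} [DecidableEq α] {L : Set (α → SignType)} (hL : IsOM L)
    (I : Finset α) (hfull : ∀ s : α → SignType, (∀ e ∈ I, s e ≠ 0) → ∃ X ∈ L, ∀ e ∈ I, X e = s e) :
    ∀ n : ℕ, ∀ s : α → SignType, (I.filter fun e => s e = 0).card = n →
      ∃ X ∈ L, ∀ e ∈ I, X e = s e := by
  intro n
  induction n with
  | zero =>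
    intro s hs
    apply hfull
    intro e he h0
    have := Finset.card_eq_zero.mp hs
    have h1 : e ∈ I.filter fun e => s e = 0 := Finset.mem_filter.mpr ⟨he, h0⟩
    rw [this] at h1
    simp at h1
  | succ n ih =>
    intro s hs
    obtain ⟨e, he⟩ : (I.filter fun e => s e = 0).Nonempty := by
      rw [← Finset.card_pos]; omega
    obtain ⟨heI, he0⟩ := Finset.mem_filter.mp he
    have hcard : ∀ a : SignType, a ≠ 0 →
        (I.filter fun f => Function.update s e a f = 0).card = n := by
      intro a ha
      have : (I.filter fun f => Function.update s e a f = 0) =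
          (I.filter fun f => s f = 0).erase e := by
        ext f
        simp only [Finset.mem_filter, Finset.mem_erase]
        by_cases hf : f = e
        · subst hf
          simp [ha]
        · rw [Function.update_of_ne hf]
          tauto
      rw [this, Finset.card_erase_of_mem he, hs]
      rfl
    obtain ⟨X, hX, hXs⟩ := ih _ (hcard 1 (by decide))
    obtain ⟨Y, hY, hYs⟩ := ih _ (hcard (-1) (by decide))
    have hXe : X e = 1 := by rw [hXs e heI, Function.update_self]
    have hYe : Y e = -1 := by rw [hYs e heI, Function.update_self]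
    obtain ⟨Z, hZ, hZe, hZf⟩ := hL.elim X hX Y hY e (by rw [hXe]; decide) (by rw [hXe, hYe])
    refine ⟨Z, hZ, ?_⟩
    intro f hf
    by_cases hfe : f = e
    · subst hfe; rw [hZe, he0]
    · have h1 : X f = s f := by rw [hXs f hf, Function.update_of_ne hfe]
      have h2 : Y f = s f := by rw [hYs f hf, Function.update_of_ne hfe]
      rw [hZf f (by rw [h1, h2]; rintro ⟨h3, h4⟩; exact sign_ne_neg h3 h4)]
      simp only [comp, h1, h2]
      split_ifs <;> rfl

theorem ext13 (s : Fin 13 → SignType) : ∃ X ∈ L13, ∀ e ∈ I4, X e = s e :=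
  extend_all isOM_L13 I4 full13 _ s rfl

/-- flipping a tope in a facet -/
theorem flip_of_update {α : Type*} [DecidableEq α] {L : Set (α → SignType)} (hL : IsOM L)
    {T : α → SignType} (hT : T ∈ L) (h0 : ∀ e, T e ≠ 0) {s : α}
    (hs : Function.update T s 0 ∈ L) : Function.update T s (-T s) ∈ L := by
  have h := hL.cmp _ hs _ (hL.neg _ hT)
  have h1 : comp (Function.update T s 0) (-T) = Function.update T s (-T s) := by
    funext f
    by_cases hf : f = s
    · subst hf
      simp [comp]
    · simp only [comp, Function.update_of_ne hf, if_neg (h0 f)]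
  rwa [h1] at h

end Pool.Agent.H6.LV
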